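import Pool.Agent.helper79.MC.Base

/-!
MC project, module D: self dual subgroups have `|W|^2 = q`, and positive semidefiniteness.
-/

set_option autoImplicit false

open Finset Classical

set_option linter.unusedSectionVars false

namespace MCut

section D
variable {F : Type*} [Field F] [Fintype F] [CharP F 2]

/-- the sign of an element of `ZMod 2` -/
noncomputable def D_sg (a : ZMod 2) : ℝ := if a = 0 then 1 else -1

theorem D_sg_zero : D_sg 0 = 1 := by simp [D_sg]

theorem D_sg_add (a b : ZMod 2) : D_sg (a + b) = D_sg a * D_sg b := by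
  have h01 : ∀ c : ZMod 2, c = 0 ∨ c = 1 := by decide
  have ha := h01 a
  have hb := h01 b
  have h11 : (1 : ZMod 2) + 1 = 0 := by decide
  rcases ha with rfl | rfl <;> rcases hb with rfl | rfl <;> simp [D_sg, h11]

theorem D_sg_of_ne {a : ZMod 2} (h : a ≠ 0) : D_sg a = -1 := by simp [D_sg, h]

/-- character sum over a subgroup -/
theorem D_sum (V : AddSubgroup F) (f : F →+ ZMod 2) :
    ∑ w : F, (if w ∈ V then D_sg (f w) else 0)
      = if (∀ w ∈ V, f w = 0) then (Nat.card V : ℝ) else 0 := by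
  split_ifs with h
  · have h1 : ∑ w : F, (if w ∈ V then D_sg (f w) else 0)
        = ∑ w : F, (if w ∈ V then (1 : ℝ) else 0) := by
      refine Finset.sum_congr rfl fun w _ => ?_
      split_ifs with hw
      · rw [h w hw, D_sg_zero]
      · rfl
    rw [h1, Finset.sum_boole]
    congr 1
    rw [Nat.card_eq_fintype_card, ← Fintype.card_coe]
    exact Fintype.card_congr (Equiv.subtypeEquivRight (by simp))
  · push Not at h
    obtain ⟨w0, hw0, hf⟩ := h
    have h1 : ∑ w : F, (if w ∈ V then D_sg (f w) else 0)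
        = ∑ w : F, (if w + w0 ∈ V then D_sg (f (w + w0)) else 0) :=
      (Equiv.sum_comp (Equiv.addRight w0) (fun w => if w ∈ V then D_sg (f w) else 0)).symm
    have h2 : ∑ w : F, (if w + w0 ∈ V then D_sg (f (w + w0)) else 0)
        = - ∑ w : F, (if w ∈ V then D_sg (f w) else 0) := by
      rw [← Finset.sum_neg_distrib]
      refine Finset.sum_congr rfl fun w _ => ?_
      have hiff : w + w0 ∈ V ↔ w ∈ V := by
        constructor
        · intro h
          have := V.sub_mem h hw0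
          simpa using this
        · intro h; exact V.add_mem h hw0
      by_cases hw : w ∈ V
      · rw [if_pos (hiff.2 hw), if_pos hw, map_add, D_sg_add, D_sg_of_ne hf]; ring
      · rw [if_neg (fun h => hw (hiff.1 h)), if_neg hw]; simp
    linarith

/-- the additive map `w ↦ τ (w * x)` -/
def D_mul (τ : F →+ ZMod 2) (x : F) : F →+ ZMod 2 := τ.comp (AddMonoidHom.mulRight x)

theorem D_mul_apply (τ : F →+ ZMod 2) (x w : F) : D_mul τ x w = τ (w * x) := rfl

theorem D_sum_all (τ : F →+ ZMod 2) (hnt : ∃ z, τ z ≠ 0) (x : F) :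
    ∑ w : F, D_sg (τ (w * x)) = if x = 0 then (Fintype.card F : ℝ) else 0 := by
  have h := D_sum (⊤ : AddSubgroup F) (D_mul τ x)
  simp only [AddSubgroup.mem_top, if_true, true_implies] at h
  have h3 : ∑ w : F, D_sg (τ (w * x)) = ∑ w : F, D_sg (D_mul τ x w) := rfl
  rw [h3, h]
  by_cases hx : x = 0
  · subst hx
    rw [if_pos rfl, if_pos]
    · simp
    · intro w; simp [D_mul_apply]
  · rw [if_neg hx, if_neg]
    intro hall
    obtain ⟨z, hz⟩ := hnt
    apply hz
    have := hall (z * x⁻¹)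
    rwa [D_mul_apply, inv_mul_cancel_right₀ hx] at this

theorem D_sum_W (τ : F →+ ZMod 2) (W : AddSubgroup F)
    (hW : ∀ x, x ∈ W ↔ ∀ w ∈ W, τ (w * x) = 0) (x : F) :
    ∑ w : F, (if w ∈ W then D_sg (τ (w * x)) else 0)
      = if x ∈ W then (Nat.card W : ℝ) else 0 := by
  have h := D_sum W (D_mul τ x)
  simp only [D_mul_apply] at h
  rw [h]
  by_cases hx : x ∈ W
  · rw [if_pos hx, if_pos ((hW x).1 hx)]
  · rw [if_neg hx, if_neg (fun h => hx ((hW x).2 h))]

theorem D_card_filter (W : AddSubgroup F) :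
    (univ.filter (fun w : F => w ∈ W)).card = Nat.card W := by
  rw [Nat.card_eq_fintype_card, ← Fintype.card_coe]
  exact Fintype.card_congr (Equiv.subtypeEquivRight (by simp))

/-- `|W|^2 = q` : double counting of the signs `(-1)^(τ(w x))` over `w ∈ W`, `x ∈ F`. -/
theorem card_sq (τ : F →+ ZMod 2) (hnt : ∃ z, τ z ≠ 0) (W : AddSubgroup F)
    (hW : ∀ x, x ∈ W ↔ ∀ w ∈ W, τ (w * x) = 0) :
    (Nat.card W) ^ 2 = Fintype.card F := by
  have h1 : ∑ x : F, ∑ w : F, (if w ∈ W then D_sg (τ (w * x)) else 0)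
      = (Nat.card W : ℝ) ^ 2 := by
    simp_rw [D_sum_W τ W hW]
    rw [← Finset.sum_filter, Finset.sum_const, nsmul_eq_mul, D_card_filter, sq]
  have h2 : ∑ x : F, ∑ w : F, (if w ∈ W then D_sg (τ (w * x)) else 0)
      = (Fintype.card F : ℝ) := by
    rw [Finset.sum_comm]
    have h3 : ∀ w : F, ∑ x : F, (if w ∈ W then D_sg (τ (w * x)) else 0)
        = if w = 0 then (Fintype.card F : ℝ) else 0 := by
      intro w
      by_cases hw : w ∈ W
      · have h4 := D_sum_all τ hnt w
        rw [← h4]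
        refine Finset.sum_congr rfl fun x _ => ?_
        rw [if_pos hw, mul_comm]
      · have hw0 : w ≠ 0 := by
          rintro rfl; exact hw W.zero_mem
        rw [if_neg hw0]
        simp [hw]
    simp_rw [h3]
    simp
  have h3 : ((Nat.card W : ℝ)) ^ 2 = (Fintype.card F : ℝ) := by rw [← h1, h2]
  exact_mod_cast h3

theorem D_one_mem (τ : F →+ ZMod 2) (hτ : ∀ x, τ (x ^ 2) = τ x) (W : AddSubgroup F)
    (hW : ∀ x, x ∈ W ↔ ∀ w ∈ W, τ (w * x) = 0) : (1 : F) ∈ W := by
  rw [hW]
  intro w hw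
  rw [mul_one, ← hτ w, sq]
  exact (hW w).1 hw w hw

/-- the kernel `N` -/
noncomputable def D_N (τ : F →+ ZMod 2) (W : AddSubgroup F) (y u v : F) : ℝ :=
  if y * (u + v) ^ 2 ∈ W then D_sg (τ (y * (u * v + u ^ 2))) else 0

theorem D_key1 (τ : F →+ ZMod 2) (hτ : ∀ x, τ (x ^ 2) = τ x) (hnt : ∃ z, τ z ≠ 0)
    (W : AddSubgroup F) (hW : ∀ x, x ∈ W ↔ ∀ w ∈ W, τ (w * x) = 0) (P R : F × F) :
    ∑ y : F, D_sg (τ (y * (P.2 + R.2))) * D_N τ W y P.1 R.1
      = (Nat.card W : ℝ) * (if AdjW W P R then 1 else 0)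
        + (Fintype.card F : ℝ) * (if P = R then 1 else 0) := by
  obtain ⟨u, b⟩ := P
  obtain ⟨u', b'⟩ := R
  have h2 : (2 : F) = 0 := CharTwo.two_eq_zero
  have h1W : (1 : F) ∈ W := D_one_mem τ hτ W hW
  by_cases hu : u = u'
  · subst hu
    have hadj : ¬ AdjW W (u, b) (u, b') := fun h => h.1 rfl
    rw [if_neg hadj]
    have hN : ∀ y : F, D_N τ W y u u = 1 := by
      intro y
      unfold D_N
      have e1 : u + u = 0 := by rw [← two_mul, h2, zero_mul]
      have e2 : u * u + u ^ 2 = 0 := by rw [sq, ← two_mul, h2, zero_mul]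
      rw [e1, e2]
      simp [D_sg_zero, W.zero_mem]
    simp only [hN, mul_one]
    rw [D_sum_all τ hnt]
    have e3 : b + b' = 0 ↔ (u, b) = (u, b') := by
      rw [CharTwo.add_eq_zero]
      constructor
      · rintro rfl; rfl
      · intro h; exact (Prod.ext_iff.1 h).2
    by_cases hb : b + b' = 0
    · rw [if_pos hb, if_pos (e3.1 hb)]; ring
    · rw [if_neg hb, if_neg (fun h => hb (e3.2 h))]; ring
  · have hne : u + u' ≠ 0 := add_ne_zero_of_ne hu
    have hne2 : (u + u') ^ 2 ≠ 0 := pow_ne_zero 2 hne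
    have hPR : (u, b) ≠ (u', b') := fun h => hu (Prod.ext_iff.1 h).1
    rw [if_neg hPR]
    -- substitution
    have hsub : ∑ y : F, D_sg (τ (y * (b + b'))) * D_N τ W y u u'
        = ∑ w : F, D_sg (τ (w * ((u + u') ^ 2)⁻¹ * (b + b')))
            * D_N τ W (w * ((u + u') ^ 2)⁻¹) u u' :=
      (Equiv.sum_comp (Equiv.mulRight₀ (((u + u') ^ 2)⁻¹) (inv_ne_zero hne2))
        (fun y => D_sg (τ (y * (b + b'))) * D_N τ W y u u')).symm
    have hterm : ∀ w : F, D_sg (τ (w * ((u + u') ^ 2)⁻¹ * (b + b')))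
            * D_N τ W (w * ((u + u') ^ 2)⁻¹) u u'
        = if w ∈ W then D_sg (τ (w * ((b + b' + u * u' + u ^ 2) / (u + u') ^ 2))) else 0 := by
      intro w
      unfold D_N
      rw [inv_mul_cancel_right₀ hne2]
      by_cases hw : w ∈ W
      · rw [if_pos hw, if_pos hw, ← D_sg_add, ← map_add]
        congr 2
        field_simp
        ring
      · rw [if_neg hw, if_neg hw, mul_zero]
    have hkey : (b + b' + u * u' + u ^ 2) / (u + u') ^ 2 ∈ W ↔ gg (u, b) (u', b') ∈ W := by
      have e1 : (b + b' + u * u' + u ^ 2) / (u + u') ^ 2 = gg (u, b) (u', b') + 1 := by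
        unfold gg
        field_simp
        linear_combination (-(u' ^ 2) - u * u') * h2
      rw [e1]
      constructor
      · intro h
        have := W.sub_mem h h1W
        simpa using this
      · intro h; exact W.add_mem h h1W
    change ∑ y : F, D_sg (τ (y * (b + b'))) * D_N τ W y u u' = _
    rw [hsub]
    simp_rw [hterm]
    rw [D_sum_W τ W hW]
    by_cases hg : gg (u, b) (u', b') ∈ W
    · rw [if_pos (hkey.2 hg), if_pos ⟨hu, hg⟩]; ring
    · rw [if_neg (fun h => hg (hkey.1 h)), if_neg (fun h => hg h.2)]; ring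

theorem D_key2 (τ : F →+ ZMod 2) (hτ : ∀ x, τ (x ^ 2) = τ x)
    (W : AddSubgroup F) (hW : ∀ x, x ∈ W ↔ ∀ w ∈ W, τ (w * x) = 0) (y u v : F) :
    ∑ c : F, D_N τ W y c u * D_N τ W y c v
      = ((univ.filter (fun D : F => y * D ^ 2 ∈ W)).card : ℝ) * D_N τ W y u v := by
  have h2 : (2 : F) = 0 := CharTwo.two_eq_zero
  have hterm : ∀ c : F, D_N τ W y c u * D_N τ W y c v
      = (if y * (c + u) ^ 2 ∈ W then (1 : ℝ) else 0) * D_N τ W y u v := by
    intro c
    have e0 : y * (u + v) ^ 2 = y * (c + u) ^ 2 + y * (c + v) ^ 2 := by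
      linear_combination (y * u * v - y * c ^ 2 - y * c * u - y * c * v) * h2
    by_cases h1 : y * (c + u) ^ 2 ∈ W
    · rw [if_pos h1, one_mul]
      by_cases h3 : y * (c + v) ^ 2 ∈ W
      · have h4 : y * (u + v) ^ 2 ∈ W := by rw [e0]; exact W.add_mem h1 h3
        unfold D_N
        rw [if_pos h1, if_pos h3, if_pos h4, ← D_sg_add, ← map_add]
        have e1 : y * (c * u + c ^ 2) + y * (c * v + c ^ 2)
            = y * (u * v + u ^ 2) + y * ((u + c) * (u + v)) := by
          linear_combination (y * c ^ 2 - y * u * v - y * u ^ 2) * h2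
        have e2 : τ (y * ((u + c) * (u + v))) = 0 := by
          rw [← hτ]
          have e3 : (y * ((u + c) * (u + v))) ^ 2 = (y * (u + v) ^ 2) * (y * (c + u) ^ 2) := by
            ring
          rw [e3]
          exact (hW _).1 h1 _ h4
        rw [e1, map_add, e2, add_zero]
      · have h4 : y * (u + v) ^ 2 ∉ W := by
          intro h
          apply h3
          have := W.sub_mem h h1
          rwa [e0, add_sub_cancel_left] at this
        unfold D_N
        rw [if_neg h3, if_neg h4, mul_zero]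
    · rw [if_neg h1, zero_mul]
      unfold D_N
      rw [if_neg h1, zero_mul]
  simp_rw [hterm]
  rw [← Finset.sum_mul]
  congr 1
  have h3 : ∑ c : F, (if y * (c + u) ^ 2 ∈ W then (1 : ℝ) else 0)
      = ∑ c : F, (if y * c ^ 2 ∈ W then (1 : ℝ) else 0) :=
    Equiv.sum_comp (Equiv.addRight u) (fun c => if y * c ^ 2 ∈ W then (1 : ℝ) else 0)
  rw [h3, Finset.sum_boole]

/-- The quadratic form is a positive combination of squares. -/
theorem psd (τ : F →+ ZMod 2) (hτ : ∀ x, τ (x ^ 2) = τ x) (hnt : ∃ z, τ z ≠ 0) (W : AddSubgroup F)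
    (hW : ∀ x, x ∈ W ↔ ∀ w ∈ W, τ (w * x) = 0) (x : F × F → ℝ) :
    0 ≤ (Nat.card W : ℝ) * ∑ P : F × F, ∑ R : F × F, (if AdjW W P R then x P * x R else 0)
      + (Fintype.card F : ℝ) * ∑ P : F × F, x P ^ 2 := by
  have h1 : (Nat.card W : ℝ) * ∑ P : F × F, ∑ R : F × F, (if AdjW W P R then x P * x R else 0)
      + (Fintype.card F : ℝ) * ∑ P : F × F, x P ^ 2
      = ∑ P : F × F, ∑ R : F × F, x P * x R *
          ((Nat.card W : ℝ) * (if AdjW W P R then 1 else 0)
            + (Fintype.card F : ℝ) * (if P = R then 1 else 0)) := by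
    rw [Finset.mul_sum, Finset.mul_sum, ← Finset.sum_add_distrib]
    refine Finset.sum_congr rfl fun P _ => ?_
    simp_rw [mul_add]
    rw [Finset.sum_add_distrib, Finset.mul_sum]
    congr 1
    · refine Finset.sum_congr rfl fun R _ => ?_
      split_ifs <;> ring
    · rw [Finset.sum_eq_single P]
      · simp; ring
      · intro R _ hR
        rw [if_neg (fun h => hR h.symm)]; ring
      · simp
  rw [h1]
  simp_rw [← D_key1 τ hτ hnt W hW]
  have hKpos : ∀ y : F, 0 < ((univ.filter (fun D : F => y * D ^ 2 ∈ W)).card : ℝ) := by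
    intro y
    have : 0 < (univ.filter (fun D : F => y * D ^ 2 ∈ W)).card :=
      Finset.card_pos.2 ⟨0, by simp [W.zero_mem]⟩
    exact_mod_cast this
  have h2 : ∀ y : F, ∀ P R : F × F, D_N τ W y P.1 R.1
      = ((univ.filter (fun D : F => y * D ^ 2 ∈ W)).card : ℝ)⁻¹
        * ∑ c : F, D_N τ W y c P.1 * D_N τ W y c R.1 := by
    intro y P R
    rw [D_key2 τ hτ W hW]
    rw [← mul_assoc, inv_mul_cancel₀ (hKpos y).ne', one_mul]
  have h3 : ∑ P : F × F, ∑ R : F × F, x P * x R *
        ∑ y : F, D_sg (τ (y * (P.2 + R.2))) * D_N τ W y P.1 R.1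
      = ∑ y : F, ((univ.filter (fun D : F => y * D ^ 2 ∈ W)).card : ℝ)⁻¹
        * ∑ c : F, (∑ P : F × F, x P * D_sg (τ (y * P.2)) * D_N τ W y c P.1) ^ 2 := by
    have h4 : ∀ P R : F × F, x P * x R *
        ∑ y : F, D_sg (τ (y * (P.2 + R.2))) * D_N τ W y P.1 R.1
        = ∑ y : F, ∑ c : F, ((univ.filter (fun D : F => y * D ^ 2 ∈ W)).card : ℝ)⁻¹
          * ((x P * D_sg (τ (y * P.2)) * D_N τ W y c P.1)
            * (x R * D_sg (τ (y * R.2)) * D_N τ W y c R.1)) := by
      intro P R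
      rw [Finset.mul_sum]
      refine Finset.sum_congr rfl fun y _ => ?_
      rw [h2 y P R, mul_add, map_add, D_sg_add, Finset.mul_sum, Finset.mul_sum, Finset.mul_sum]
      refine Finset.sum_congr rfl fun c _ => ?_
      ring
    simp_rw [h4]
    have h5 : ∀ P : F × F, ∑ R : F × F, ∑ y : F, ∑ c : F,
          ((univ.filter (fun D : F => y * D ^ 2 ∈ W)).card : ℝ)⁻¹
          * ((x P * D_sg (τ (y * P.2)) * D_N τ W y c P.1)
            * (x R * D_sg (τ (y * R.2)) * D_N τ W y c R.1))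
        = ∑ y : F, ∑ c : F, ∑ R : F × F,
          ((univ.filter (fun D : F => y * D ^ 2 ∈ W)).card : ℝ)⁻¹
          * ((x P * D_sg (τ (y * P.2)) * D_N τ W y c P.1)
            * (x R * D_sg (τ (y * R.2)) * D_N τ W y c R.1)) := by
      intro P
      rw [Finset.sum_comm]
      refine Finset.sum_congr rfl fun y _ => ?_
      rw [Finset.sum_comm]
    simp_rw [h5]
    rw [Finset.sum_comm]
    refine Finset.sum_congr rfl fun y _ => ?_
    rw [Finset.sum_comm, Finset.mul_sum]
    refine Finset.sum_congr rfl fun c _ => ?_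
    rw [sq, Finset.sum_mul_sum, Finset.mul_sum]
    refine Finset.sum_congr rfl fun P _ => ?_
    rw [Finset.mul_sum]
  rw [h3]
  refine Finset.sum_nonneg fun y _ => ?_
  refine mul_nonneg (inv_nonneg.2 (hKpos y).le) ?_
  exact Finset.sum_nonneg fun c _ => sq_nonneg _

end D

end MCut
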